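import Pool.Agent.V11229.LdcRed

/-!
# The locating-dominating coalition number is `NP`-hard, even for a fixed number of parts
-/

namespace Pool.Agent.Results.MP_722fe9_lc.LdcNPHard

open Pool.Agent.NPC Pool.Agent.NPC.WC648 Pool.Agent.V11229 Pool.Agent.V11229.Ldc

/-- `D` is a locating-dominating set of `G`. -/
def IsLDSet {V : Type} (G : SimpleGraph V) (D : Set V) : Prop :=
  (∀ v, v ∉ D → ∃ w ∈ D, G.Adj v w) ∧
    ∀ u v, u ∉ D → v ∉ D → u ≠ v → G.neighborSet u ∩ D ≠ G.neighborSet v ∩ D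

/-- The disjoint sets `X` and `Y` form an LD-coalition. -/
def IsCoalition {V : Type} (G : SimpleGraph V) (X Y : Set V) : Prop :=
  Disjoint X Y ∧ ¬ IsLDSet G X ∧ ¬ IsLDSet G Y ∧ IsLDSet G (X ∪ Y)

/-- `P` is an LDC-partition of `G`. -/
def IsLDCPartition {V : Type} (G : SimpleGraph V) (P : Set (Set V)) : Prop :=
  Setoid.IsPartition P ∧ ∀ X ∈ P, ¬ IsLDSet G X ∧ ∃ Y ∈ P, Y ≠ X ∧ IsCoalition G X Y

/-- `C_L(G) ≥ k`: some LDC-partition of the finite graph `G` has at least `k` parts. -/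
def CLAtLeast {V : Type} (G : SimpleGraph V) (k : ℕ) : Prop :=
  ∃ P : Set (Set V), IsLDCPartition G P ∧ k ≤ P.ncard

/-- The decision problem LDC: the instance is a connected graph with a number. -/
def LDC (I : FG × ℕ) : Prop := I.1.G.Connected ∧ CLAtLeast I.1.G I.2

/-- The decision problem LDC for the fixed number `k`: the instance is a connected graph. -/
def LDCk (k : ℕ) (X : FG) : Prop := X.G.Connected ∧ CLAtLeast X.G k

/-- The decision problem LDC for the fixed number `k` on connected bipartite graphs. -/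
def LDCkBip (k : ℕ) (X : FG) : Prop := X.G.Connected ∧ X.G.IsBipartite ∧ CLAtLeast X.G k

theorem cl_iff {V : Type} [Finite V] (G : SimpleGraph V) (k : ℕ) :
    CLAtLeast G k ↔ HasLDC G k := by
  constructor
  · rintro ⟨P, ⟨hP, hc⟩, hk⟩
    have hfin : Finite P := Set.toFinite P
    let e : P ≃ Fin P.ncard := Finite.equivFinOfCardEq rfl
    have hcl : ∀ v, ∃ X : P, v ∈ X.1 := by
      intro v
      obtain ⟨X, hX, _⟩ := hP.2 v
      exact ⟨⟨X, hX.1⟩, hX.2⟩
    choose cl hcl using hcl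
    have huniq : ∀ (v : V) (X : P), v ∈ X.1 → cl v = X := by
      intro v X hX
      exact Subtype.ext ((hP.2 v).unique ⟨(cl v).2, hcl v⟩ ⟨X.2, hX⟩)
    have hfib : ∀ X : P, (fun v => e (cl v)) ⁻¹' {e X} = X.1 := by
      intro X
      ext v
      simp only [Set.mem_preimage, Set.mem_singleton_iff, EmbeddingLike.apply_eq_iff_eq]
      constructor
      · rintro rfl
        exact hcl v
      · exact huniq v X
    refine ⟨P.ncard, hk, fun v => e (cl v), ?_, fun i => ?_⟩
    · intro i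
      obtain ⟨X, rfl⟩ := e.surjective i
      have hne : X.1.Nonempty := by
        rw [Set.nonempty_iff_ne_empty]
        intro h0
        exact hP.1 (h0 ▸ X.2)
      obtain ⟨v, hv⟩ := hne
      exact ⟨v, congrArg e (huniq v X hv)⟩
    · obtain ⟨X, rfl⟩ := e.surjective i
      obtain ⟨h1, Y, hY, hYX, h2⟩ := hc X.1 X.2
      refine ⟨by rw [hfib]; exact h1, e ⟨Y, hY⟩, ?_, ?_⟩
      · intro h3
        exact hYX (congrArg Subtype.val (e.injective h3))
      · rw [hfib, hfib]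
        exact h2.2.2.2
  · rintro ⟨m, hm, π, hsurj, hπ⟩
    have hinj : Function.Injective (fun i : Fin m => π ⁻¹' {i}) := by
      intro i j h
      obtain ⟨v, hv⟩ := hsurj i
      have h1 : v ∈ π ⁻¹' {i} := hv
      have h2 : v ∈ π ⁻¹' {j} := by
        have h3 : π ⁻¹' {i} = π ⁻¹' {j} := h
        rw [← h3]
        exact h1
      exact hv.symm.trans h2
    refine ⟨Set.range (fun i : Fin m => π ⁻¹' {i}), ⟨⟨?_, ?_⟩, ?_⟩, ?_⟩
    · rintro ⟨i, hi⟩
      obtain ⟨v, hv⟩ := hsurj i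
      have h1 : v ∈ π ⁻¹' {i} := hv
      have h2 : π ⁻¹' {i} = ∅ := hi
      rw [h2] at h1
      exact h1
    · intro v
      refine ⟨π ⁻¹' {π v}, ⟨⟨π v, rfl⟩, rfl⟩, ?_⟩
      rintro _ ⟨⟨i, rfl⟩, hi⟩
      have h1 : π v = i := hi
      rw [h1]
    · rintro _ ⟨i, rfl⟩
      obtain ⟨h1, j, hj, h2⟩ := hπ i
      refine ⟨h1, π ⁻¹' {j}, ⟨j, rfl⟩, fun h => hj (hinj h), ?_, h1, (hπ j).1, h2⟩
      rw [Set.disjoint_left]
      intro v hv hv'
      exact hj (hv'.symm.trans hv)
    · have h1 : (Set.range (fun i : Fin m => π ⁻¹' {i})).ncard = m := by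
        rw [← Set.image_univ, Set.ncard_image_of_injective _ hinj, Set.ncard_univ]
        simp
      rw [h1]
      exact hm

theorem isLD_iso {V W : Type} {G : SimpleGraph V} {H : SimpleGraph W} (e : G ≃g H) {D : Set W} :
    IsLD G (e ⁻¹' D) ↔ IsLD H D := by
  constructor
  · rintro ⟨h1, h2⟩
    refine ⟨fun v hv => ?_, fun u v hu hv huv h => ?_⟩
    · obtain ⟨w, hw, hadj⟩ := h1 (e.symm v) (by simpa using hv)
      refine ⟨e w, hw, ?_⟩
      rw [← e.symm.map_adj_iff]
      simpa using hadj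
    · refine h2 (e.symm u) (e.symm v) (by simpa using hu) (by simpa using hv)
        (fun h3 => huv (e.symm.injective h3)) ?_
      ext w
      have h3 : e w ∈ H.neighborSet u ∩ D ↔ e w ∈ H.neighborSet v ∩ D := by rw [h]
      have h4 : ∀ z, H.Adj z (e w) ↔ G.Adj (e.symm z) w := by
        intro z
        rw [← e.symm.map_adj_iff]
        simp
      simp only [Set.mem_inter_iff, SimpleGraph.mem_neighborSet, Set.mem_preimage] at h3 ⊢
      rw [← h4, ← h4]
      exact h3
  · rintro ⟨h1, h2⟩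
    refine ⟨fun v hv => ?_, fun u v hu hv huv h => ?_⟩
    · obtain ⟨w, hw, hadj⟩ := h1 (e v) hv
      refine ⟨e.symm w, by simpa using hw, ?_⟩
      rw [← e.map_adj_iff]
      simpa using hadj
    · refine h2 (e u) (e v) hu hv (fun h3 => huv (e.injective h3)) ?_
      ext w
      have h3 : e.symm w ∈ G.neighborSet u ∩ e ⁻¹' D ↔ e.symm w ∈ G.neighborSet v ∩ e ⁻¹' D := by
        rw [h]
      have h4 : ∀ z, G.Adj z (e.symm w) ↔ H.Adj (e z) w := by
        intro z
        rw [← e.map_adj_iff]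
        simp
      simp only [Set.mem_inter_iff, SimpleGraph.mem_neighborSet, Set.mem_preimage,
        RelIso.apply_symm_apply] at h3 ⊢
      rw [← h4, ← h4]
      exact h3

theorem hasLDC_iso {V W : Type} {G : SimpleGraph V} {H : SimpleGraph W} (e : G ≃g H) {k : ℕ}
    (h : HasLDC H k) : HasLDC G k := by
  obtain ⟨m, hm, π, hsurj, hπ⟩ := h
  refine ⟨m, hm, fun v => π (e v), hsurj.comp e.surjective, fun i => ?_⟩
  obtain ⟨h1, j, hj, h2⟩ := hπ i
  exact ⟨fun h => h1 ((isLD_iso e).1 h), j, hj, (isLD_iso e (D := π ⁻¹' {i} ∪ π ⁻¹' {j})).2 h2⟩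

theorem red_iff (r : ℕ) (hr : 11 ≤ r) (φ : F4) :
    NAE φ ↔ CLAtLeast (red r φ).G (r + 3) := by
  obtain ⟨e⟩ := iso_GR r φ (by omega)
  rw [cl_iff, ← hasLDC_GR r φ hr]
  exact ⟨fun h => hasLDC_iso e h, fun h => hasLDC_iso e.symm h⟩

theorem red_connected (r : ℕ) (hr : 11 ≤ r) (φ : F4) : (red r φ).G.Connected := by
  obtain ⟨e⟩ := iso_GR r φ (by omega)
  exact e.connected_iff.2 (connected_GR r φ (by omega))

theorem red_bip (r : ℕ) (hr : 11 ≤ r) (φ : F4) : (red r φ).G.IsBipartite := by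
  obtain ⟨e⟩ := iso_GR r φ (by omega)
  exact colorable_GG.of_hom e.toHom

/-- LDC is `NP`-hard, and for every fixed number `k ≥ 14` LDC for the fixed number `k` is
`NP`-hard, even on connected bipartite graphs. -/
theorem result : NPHardP LDC ∧
    ∀ k, 14 ≤ k → NPHardP (LDCk k) ∧ NPHardP (LDCkBip k) := by
  have h1 : ∀ k, 14 ≤ k → HardI (LDCkBip k) := by
    intro k hk
    obtain ⟨r, rfl⟩ : ∃ r, k = r + 3 := ⟨k - 3, by omega⟩
    refine hardI_NAE.trans (red_poly r) (fun φ => ?_)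
    rw [red_iff r (by omega) φ]
    exact ⟨fun h => ⟨red_connected r (by omega) φ, red_bip r (by omega) φ, h⟩, fun h => h.2.2⟩
  have h2 : ∀ k, 14 ≤ k → HardI (LDCk k) := by
    intro k hk
    obtain ⟨r, rfl⟩ : ∃ r, k = r + 3 := ⟨k - 3, by omega⟩
    refine hardI_NAE.trans (red_poly r) (fun φ => ?_)
    rw [red_iff r (by omega) φ]
    exact ⟨fun h => ⟨red_connected r (by omega) φ, h⟩, fun h => h.2⟩
  refine ⟨?_, fun k hk => ⟨(h2 k hk).toNPHardP, (h1 k hk).toNPHardP⟩⟩
  refine HardI.toNPHardP ((h2 14 le_rfl).trans (f := fun X => (X, 14)) ?_ (fun X => ?_))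
  · exact NPC.Poly.pair NPC.Poly.id (NPC.Poly.const 14)
  · exact Iff.rfl

end Pool.Agent.Results.MP_722fe9_lc.LdcNPHard
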